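import Pool.Agent.U540.HC.Stm

/-!
# Project HC, package GADGET
-/

set_option autoImplicit false

namespace Pool.Agent.U263.HC

open FirstOrder FirstOrder.Language
open Pool.Agent.U540.HC

/-! ### Solution sets -/

lemma sol_two (c : Jn) (k k' : Fin 3) (h : k ≠ k') (a b : Bool) :
    ∃ t : Sol c, t.1 k = a ∧ t.1 k' = b := by
  obtain ⟨j, hj, hj'⟩ : ∃ j : Fin 3, j ≠ k ∧ j ≠ k' := by
    revert k k' h; decide
  refine ⟨⟨fun i => if i = k then a else if i = k' then b else !(cd c j).2.2, j, ?_⟩, ?_, ?_⟩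
  · simp [hj, hj']
  · simp
  · simp [h.symm]

lemma sol_one (c : Jn) (k : Fin 3) (a : Bool) : ∃ t : Sol c, t.1 k = a := by
  obtain ⟨j, hj⟩ : ∃ j : Fin 3, k ≠ j := by
    revert k; decide
  obtain ⟨t, h, -⟩ := sol_two c k j hj a true
  exact ⟨t, h⟩

instance (c : Jn) : Nonempty (Sol c) := ⟨(sol_one c 0 true).choose⟩

lemma normal_unique {B : Type} (c : Jn) (k k' : Fin 3) (g g' : Bool → B)
    (h : ∀ t : Sol c, g (t.1 k) = g' (t.1 k')) (hn : ¬ ∃ b, ∀ t : Sol c, g (t.1 k) = b) :
    k = k' ∧ g = g' := by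
  by_cases hk : k = k'
  · subst hk
    refine ⟨rfl, ?_⟩
    funext a
    obtain ⟨t, ht⟩ := sol_one c k a
    have := h t
    rwa [ht] at this
  · exfalso
    apply hn
    refine ⟨g' true, fun t => ?_⟩
    obtain ⟨t', h1, h2⟩ := sol_two c k k' hk (t.1 k) true
    have := h t'
    rwa [h1, h2] at this

/-! ### The values of `iota` -/

lemma iota_const {B : Type} (c : Jn) (u : Sol c → B) (b : B) (h : ∀ t, u t = b) :
    iota c u = Sum.inl b := by
  have h' : ∃ b, ∀ t, u t = b := ⟨b, h⟩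
  unfold iota
  rw [dif_pos h']
  congr 1
  obtain ⟨t⟩ : Nonempty (Sol c) := inferInstance
  rw [← h t, ← h'.choose_spec t]

lemma iota_var {B : Type} (c : Jn) (k : Fin 3) (g : Bool → B)
    (hn : ¬ ∃ b, ∀ t : Sol c, g (t.1 k) = b) :
    iota c (fun t => g (t.1 k)) = Sum.inr ((cd c k).1, Sum.inl ((cd c k).2.1, g)) := by
  have h' : ∃ kg : Fin 3 × (Bool → B), ∀ t : Sol c, g (t.1 k) = kg.2 (t.1 kg.1) := ⟨(k, g), fun _ => rfl⟩
  unfold iota
  rw [dif_neg hn, dif_pos h']
  obtain ⟨h1, h2⟩ := normal_unique c k h'.choose.1 g h'.choose.2 h'.choose_spec hn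
  rw [← h1, ← h2]

/-- the three cases of `iota` -/
lemma iota_cases {B : Type} (c : Jn) (u : Sol c → B) :
    (∃ b, (∀ t, u t = b) ∧ iota c u = Sum.inl b) ∨
    (∃ k g, (∀ t, u t = g (t.1 k)) ∧ iota c u = Sum.inr ((cd c k).1, Sum.inl ((cd c k).2.1, g))) ∨
    iota c u = Sum.inr (0, Sum.inr ⟨c, u⟩) := by
  by_cases h : ∃ b, ∀ t, u t = b
  · obtain ⟨b, hb⟩ := h
    exact Or.inl ⟨b, hb, iota_const c u b hb⟩
  · by_cases h' : ∃ kg : Fin 3 × (Bool → B), ∀ t, u t = kg.2 (t.1 kg.1)
    · obtain ⟨⟨k, g⟩, hk⟩ := h'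
      refine Or.inr (Or.inl ⟨k, g, hk, ?_⟩)
      have e : u = fun t => g (t.1 k) := funext hk
      rw [e] at h ⊢
      exact iota_var c k g h
    · refine Or.inr (Or.inr ?_)
      unfold iota
      rw [dif_neg h, dif_neg h']

lemma cd_near (c : Jn) (k : Fin 3) : |(cd c k).1.1| ≤ 1 ∧ |(cd c k).1.2| ≤ 1 := by
  revert c k; decide

theorem part1 (B : Type) (c : Jn) (u : Sol c → B) (o : Pos) (q : QB B)
    (h : iota c u = Sum.inr (o, q)) : |o.1| ≤ 1 ∧ |o.2| ≤ 1 := by
  rcases iota_cases c u with ⟨b, -, hb⟩ | ⟨k, g, -, hk⟩ | h3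
  · rw [hb] at h; cases h
  · rw [hk] at h
    cases h
    exact cd_near c k
  · rw [h3] at h
    cases h
    simp

/-! ### From an assignment to a homomorphism -/

section

variable {L : FirstOrder.Language.{0, 0}} [L.IsRelational] {B : Type} [Nonempty B] [L.Structure B]

open Classical in
/-- the map to `B` given by a satisfying assignment -/
noncomputable def val {l : Pos → Option Lab} (s : Pos → Kd → Bool)
    (hs : ∀ p c, has (l p) c → ∃ k, s (p + (cd c k).1) (cd c k).2.1 ≠ (cd c k).2.2) :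
    B ⊕ (Pos × QB B) → B
  | Sum.inl b => b
  | Sum.inr (p, Sum.inl (κ, g)) => g (s p κ)
  | Sum.inr (p, Sum.inr ⟨c, u⟩) =>
    if h : has (l p) c then u ⟨fun k => s (p + (cd c k).1) (cd c k).2.1, hs p c h⟩
    else Classical.arbitrary B

omit [L.IsRelational] [L.Structure B] in
lemma val_shift {l : Pos → Option Lab} (s : Pos → Kd → Bool)
    (hs : ∀ p c, has (l p) c → ∃ k, s (p + (cd c k).1) (cd c k).2.1 ≠ (cd c k).2.2)
    (p : Pos) (c : Jn) (h : has (l p) c) (u : Sol c → B) :
    val s hs (shift p (iota c u)) =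
      u ⟨fun k => s (p + (cd c k).1) (cd c k).2.1, hs p c h⟩ := by
  rcases iota_cases c u with ⟨b, hb, hb'⟩ | ⟨k, g, hk, hk'⟩ | h3
  · rw [hb', hb]; rfl
  · rw [hk', hk]; rfl
  · rw [h3]
    change val s hs (Sum.inr (p + 0, Sum.inr ⟨c, u⟩)) = _
    rw [add_zero]
    exact dif_pos h

theorem part2 (hnear : ∀ (c : Jn) (u : Sol c → B) o q, iota c u = Sum.inr (o, q) → |o.1| ≤ 1 ∧ |o.2| ≤ 1)
    (l : Pos → Option Lab) (h : Sat l) :
    Nonempty ((gadget L B hnear).Car (full l) Set.univ →[L] B) := by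
  obtain ⟨s, hs⟩ := h
  refine ⟨⟨fun e => val s hs e.1, fun {n} f => isEmptyElim f, ?_⟩⟩
  rintro n R x ⟨p, y, ⟨c, hc, y', hy', rfl⟩, hx⟩
  have e : (fun e : (gadget L B hnear).Car (full l) Set.univ => val (l := l) (B := B) s hs e.1) ∘ x =
      fun i => y' i ⟨fun k => s (p + (cd c k).1) (cd c k).2.1, hs p c hc⟩ := by
    funext i
    change val s hs (x i).1 = _
    rw [hx i]
    exact val_shift s hs p c hc (y' i)
  rw [e]
  exact hy' _

end

/-! ### Minion homomorphisms for finite index types -/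

section

variable {L : FirstOrder.Language.{0, 0}} {B : Type} [L.Structure B]

/-- polymorphisms with an index type -/
def IsPolI (L : FirstOrder.Language.{0, 0}) (B : Type) [L.Structure B] {I : Type}
    (f : (I → B) → B) : Prop :=
  ∀ (k : ℕ) (R : L.Relations k) (x : Fin k → I → B),
    (∀ i, Structure.RelMap R (fun j => x j i)) → Structure.RelMap R (fun j => f (x j))

lemma exists_equiv (I : Type) [Finite I] [Nonempty I] : ∃ n : ℕ, Nonempty (I ≃ Fin (n + 1)) := by
  have h : Nat.card I ≠ 0 := Nat.card_pos.ne'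
  obtain ⟨n, hn⟩ := Nat.exists_eq_succ_of_ne_zero h
  exact ⟨n, ⟨(Finite.equivFinOfCardEq hn)⟩⟩

/-- transport of a polymorphism to the index type `Fin (n + 1)` -/
def tr (I : Type) (n : ℕ) (e : I ≃ Fin (n + 1)) (f : (I → B) → B) (hf : IsPolI L B f) :
    {f : (Fin (n + 1) → B) → B // IsPol L B f} :=
  ⟨fun y : Fin (n + 1) → B => f (y ∘ e), by
    intro k R x hx
    exact hf k R (fun j => x j ∘ e) (fun i => hx (e i))⟩

lemma ext_minion (h : MinionHomToProj L B) :
    ∃ ξ : ∀ (I : Type) [Finite I] [Nonempty I] (f : (I → B) → B), IsPolI L B f → I,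
      ∀ (I J : Type) [Finite I] [Nonempty I] [Finite J] [Nonempty J] (σ : I → J)
        (f : (I → B) → B) (hf : IsPolI L B f) (g : (J → B) → B) (hg : IsPolI L B g),
        (∀ y, g y = f (y ∘ σ)) → ξ J g hg = σ (ξ I f hf) := by
  obtain ⟨ξ, hξ⟩ := h
  refine ⟨fun I _ _ f hf => (exists_equiv I).choose_spec.some.symm
    (ξ (exists_equiv I).choose (tr I _ (exists_equiv I).choose_spec.some f hf)), ?_⟩
  intro I J _ _ _ _ σ f hf g hg hfg
  have h1 := hξ (exists_equiv I).choose (exists_equiv J).choose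
    ((exists_equiv J).choose_spec.some ∘ σ ∘ (exists_equiv I).choose_spec.some.symm)
    (tr I _ (exists_equiv I).choose_spec.some f hf)
    (tr J _ (exists_equiv J).choose_spec.some g hg) (by
      intro y
      change g (y ∘ (exists_equiv J).choose_spec.some) = f _
      rw [hfg]
      congr 1
      funext i
      simp)
  change (exists_equiv J).choose_spec.some.symm _ = _
  rw [h1]
  simp

end

/-! ### From a homomorphism to an assignment -/

section

variable {L : FirstOrder.Language.{0, 0}} [L.IsRelational] {B : Type} [Nonempty B] [L.Structure B]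

/-- membership in the domain -/
abbrev Mem (l : Pos → Option Lab) (e : B ⊕ (Pos × QB B)) : Prop :=
  Sum.elim (fun _ => True) (fun x => l x.1 ≠ none) e

omit [Nonempty B] in
lemma mem_shift (l : Pos → Option Lab) (hl : WF l) (p : Pos) (c : Jn) (h : has (l p) c)
    (u : Sol c → B) : Mem l (shift p (iota c u)) := by
  rcases iota_cases c u with ⟨b, hb, hb'⟩ | ⟨k, g, hk, hk'⟩ | h3
  · rw [hb']; trivial
  · rw [hk']; exact hl p c h k
  · rw [h3]
    change l (p + 0) ≠ none
    rw [add_zero]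
    intro h0
    rw [h0] at h
    exact h

open Classical in
/-- the element named by a function on the domain of a variable -/
noncomputable def nm (p : Pos) (κ : Kd) (g : Bool → B) : B ⊕ (Pos × QB B) :=
  if h : ∃ b, ∀ a, g a = b then Sum.inl h.choose else Sum.inr (p, Sum.inl (κ, g))

omit [Nonempty B] in
lemma shift_var (p : Pos) (c : Jn) (k : Fin 3) (g : Bool → B) :
    shift p (iota c (fun t => g (t.1 k))) = nm (p + (cd c k).1) (cd c k).2.1 g := by
  unfold nm
  by_cases h : ∃ b, ∀ a, g a = b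
  · rw [dif_pos h]
    have h' := h.choose_spec
    rw [iota_const c _ h.choose (fun t => h' (t.1 k))]
    rfl
  · rw [dif_neg h, iota_var c k g]
    · rfl
    · rintro ⟨b, hb⟩
      apply h
      refine ⟨b, fun a => ?_⟩
      obtain ⟨t, ht⟩ := sol_one c k a
      rw [← ht]
      exact hb t

theorem part3 (hnear : ∀ (c : Jn) (u : Sol c → B) o q, iota c u = Sum.inr (o, q) → |o.1| ≤ 1 ∧ |o.2| ≤ 1)
    (l : Pos → Option Lab) (hl : WF l) (hm : MinionHomToProj L B)
    (hF : Nonempty ((gadget L B hnear).Car (full l) Set.univ →[L] B)) : Sat l := by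
  classical
  obtain ⟨F⟩ := hF
  obtain ⟨ξ, hξ⟩ := ext_minion hm
  have tr : ∀ e : B ⊕ (Pos × QB B), Mem l e →
      Sum.elim (fun h => h ∈ (Set.univ : Set B))
        (fun x => (gadget L B hnear).sel (full l x.1) x.2) e := by
    rintro (b | ⟨p, q⟩) h
    · exact Set.mem_univ _
    · exact h
  -- the map on all elements
  let Φ : B ⊕ (Pos × QB B) → B := fun e => if h : Mem l e then F ⟨e, tr e h⟩ else Classical.arbitrary B
  let fc : Pos → ∀ c : Jn, (Sol c → B) → B := fun p c u => Φ (shift p (iota c u))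
  let fv : Pos → Kd → (Bool → B) → B := fun p κ g => Φ (nm p κ g)
  have hfc : ∀ p c, has (l p) c → IsPolI L B (fc p c) := by
    intro p c hpc k R x hx
    have h1 : Structure.RelMap R (fun j => F ⟨shift p (iota c (x j)),
        tr _ (mem_shift l hl p c hpc (x j))⟩) := by
      refine F.map_rel R (fun j => (⟨shift p (iota c (x j)),
        tr _ (mem_shift l hl p c hpc (x j))⟩ : (gadget L B hnear).Car (full l) Set.univ)) ?_
      exact ⟨p, fun j => iota c (x j), ⟨c, hpc, x, hx, rfl⟩, fun i => rfl⟩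
    convert h1 using 2 with j
    change Φ _ = _
    exact dif_pos (mem_shift l hl p c hpc (x j))
  have hmin : ∀ p c (k : Fin 3) (g : Bool → B),
      fv (p + (cd c k).1) (cd c k).2.1 g = fc p c (g ∘ fun t : Sol c => t.1 k) := by
    intro p c k g
    change Φ (nm _ _ g) = Φ (shift p (iota c (fun t => g (t.1 k))))
    rw [shift_var]
  have hfv : ∀ p c, has (l p) c → ∀ k, IsPolI L B (fv (p + (cd c k).1) (cd c k).2.1) := by
    intro p c hpc k n R x hx
    have h1 := hfc p c hpc n R (fun j => x j ∘ fun t : Sol c => t.1 k) (fun t => hx (t.1 k))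
    convert h1 using 2 with j
    exact hmin p c k (x j)
  refine ⟨fun p κ => if h : IsPolI L B (fv p κ) then ξ Bool (fv p κ) h else false, ?_⟩
  intro p c hpc
  obtain ⟨k, hk⟩ := (ξ (Sol c) (fc p c) (hfc p c hpc)).2
  refine ⟨k, ?_⟩
  have h1 := hξ (Sol c) Bool (fun t : Sol c => t.1 k) (fc p c) (hfc p c hpc)
    (fv (p + (cd c k).1) (cd c k).2.1) (hfv p c hpc k) (hmin p c k)
  have h2 : (if h : IsPolI L B (fv (p + (cd c k).1) (cd c k).2.1) then
      ξ Bool (fv (p + (cd c k).1) (cd c k).2.1) h else false) =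
      ξ Bool (fv (p + (cd c k).1) (cd c k).2.1) (hfv p c hpc k) := dif_pos (hfv p c hpc k)
  change (if h : IsPolI L B (fv (p + (cd c k).1) (cd c k).2.1) then
      ξ Bool (fv (p + (cd c k).1) (cd c k).2.1) h else false) ≠ _
  rw [h2, h1]
  exact hk

end

theorem t_GADGET : GadgetStm :=
  ⟨part1, fun _ _ _ _ _ hnear l h => part2 hnear l h,
    fun _ _ _ _ _ hnear l hl hm hF => part3 hnear l hl hm hF⟩

end Pool.Agent.U263.HC
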